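import Pool.Agent.MP4d4f59.Core
import Pool.Agent.MP4d4f59.Body

set_option autoImplicit false

namespace Pool.Agent.Results.MP_4d4f59_co.ConstantWidthDimFour

open Pool.Agent.MP4d4f59 ComplexConjugate

/-- Euclidean four-space. -/
abbrev E4 : Type := EuclideanSpace ℝ (Fin 4)

/-- The explicit odd polynomial on four-space, a cubic form plus `ε` times a quintic form. -/
noncomputable def oddPoly (ε : ℝ) (u : E4) : ℝ :=
  ((u 0 ^ 2 - u 1 ^ 2) * u 2 + 2 * u 0 * u 1 * u 3) +
    ε * (u 0 ^ 2 + u 1 ^ 2) * (2 * u 0 * u 1 * u 2 - (u 0 ^ 2 - u 1 ^ 2) * u 3)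

/-- `v` is the vertex tuple of a regular simplex with unit edges. -/
def UnitSimplex (v : Fin 5 → E4) : Prop := ∀ i j, i ≠ j → dist (v i) (v j) = 1

lemma oddPoly_eq (ε : ℝ) (u : E4) : oddPoly ε u = fE ε (zc u) (wc u) := by
  unfold oddPoly fE zc wc
  have h1 : ((⟨u 0, u 1⟩ : ℂ) ^ 2 * conj (⟨u 2, u 3⟩ : ℂ)).re =
      (u 0 ^ 2 - u 1 ^ 2) * u 2 + 2 * u 0 * u 1 * u 3 := by
    simp only [pow_two, Complex.mul_re, Complex.mul_im, Complex.conj_re, Complex.conj_im]
    ring
  have h2 : ((⟨u 0, u 1⟩ : ℂ) ^ 2 * conj (⟨u 2, u 3⟩ : ℂ)).im =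
      2 * u 0 * u 1 * u 2 - (u 0 ^ 2 - u 1 ^ 2) * u 3 := by
    simp only [pow_two, Complex.mul_re, Complex.mul_im, Complex.conj_re, Complex.conj_im]
    ring
  have h3 : Complex.normSq (⟨u 0, u 1⟩ : ℂ) = u 0 ^ 2 + u 1 ^ 2 := by
    simp only [Complex.normSq_apply]
    ring
  rw [h1, h2, h3]

lemma oddPoly_neg (ε : ℝ) (u : E4) : oddPoly ε (-u) = -oddPoly ε u := by
  simp only [oddPoly, PiLp.neg_apply]
  ring

lemma oddPoly_contDiff (ε : ℝ) : ContDiff ℝ 2 (oddPoly ε) := by
  unfold oddPoly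
  fun_prop

/-- quantitative version -/
lemma exists_quant : ∃ ε δ : ℝ, 0 < ε ∧ 0 < δ ∧ ∀ v : Fin 5 → E4, UnitSimplex v →
    ∀ x : E4, ∃ i j, i < j ∧ δ ≤ |inner ℝ x (v j - v i) - oddPoly ε (v j - v i)| := by
  obtain ⟨ε, hε0, hε⟩ := exists_eps
  let Ψ : (Fin 5 → ℂ) × (Fin 5 → ℂ) → ℝ := fun p => ∑ i, ∑ j, ∑ k,
    |fE ε (p.1 j - p.1 i) (p.2 j - p.2 i) + fE ε (p.1 k - p.1 j) (p.2 k - p.2 j) -
      fE ε (p.1 k - p.1 i) (p.2 k - p.2 i)|
  have hfE : Continuous (fun q : ℂ × ℂ => fE ε q.1 q.2) := by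
    unfold fE
    have h1 : Continuous (fun q : ℂ × ℂ => q.1 ^ 2 * conj q.2) := by fun_prop
    have h2 : Continuous (fun q : ℂ × ℂ => Complex.normSq q.1) :=
      Complex.continuous_normSq.comp continuous_fst
    exact (Complex.continuous_re.comp h1).add
      ((continuous_const.mul h2).mul (Complex.continuous_im.comp h1))
  have hcomp : ∀ i j : Fin 5, Continuous (fun p : (Fin 5 → ℂ) × (Fin 5 → ℂ) =>
      fE ε (p.1 j - p.1 i) (p.2 j - p.2 i)) := by
    intro i j
    have h1 : Continuous (fun p : (Fin 5 → ℂ) × (Fin 5 → ℂ) => p.1 j - p.1 i) :=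
      ((continuous_apply j).comp continuous_fst).sub ((continuous_apply i).comp continuous_fst)
    have h2 : Continuous (fun p : (Fin 5 → ℂ) × (Fin 5 → ℂ) => p.2 j - p.2 i) :=
      ((continuous_apply j).comp continuous_snd).sub ((continuous_apply i).comp continuous_snd)
    exact Continuous.comp (g := fun q : ℂ × ℂ => fE ε q.1 q.2)
      (f := fun p : (Fin 5 → ℂ) × (Fin 5 → ℂ) => (p.1 j - p.1 i, p.2 j - p.2 i)) hfE
      (h1.prodMk h2)
  have hΨc : Continuous Ψ := by
    simp only [Ψ]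
    refine continuous_finsetSum _ (fun i _ => continuous_finsetSum _ (fun j _ =>
      continuous_finsetSum _ (fun k _ => ?_)))
    exact (((hcomp i j).add (hcomp j k)).sub (hcomp i k)).abs
  have hΨpos : ∀ p ∈ {p : (Fin 5 → ℂ) × (Fin 5 → ℂ) | Gram p.1 p.2}, 0 < Ψ p := by
    rintro ⟨x, y⟩ hG
    by_contra hcon
    push Not at hcon
    have hz : ∀ i j k, fE ε (x j - x i) (y j - y i) + fE ε (x k - x j) (y k - y j) -
        fE ε (x k - x i) (y k - y i) = 0 := by
      intro i j k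
      have h0 : |fE ε (x j - x i) (y j - y i) + fE ε (x k - x j) (y k - y j) -
          fE ε (x k - x i) (y k - y i)| ≤ Ψ (x, y) := by
        simp only [Ψ]
        have hk := Finset.single_le_sum (f := fun k => |fE ε (x j - x i) (y j - y i) +
          fE ε (x k - x j) (y k - y j) - fE ε (x k - x i) (y k - y i)|)
          (fun k _ => abs_nonneg _) (Finset.mem_univ k)
        have hj := Finset.single_le_sum (f := fun j => ∑ k, |fE ε (x j - x i) (y j - y i) +
          fE ε (x k - x j) (y k - y j) - fE ε (x k - x i) (y k - y i)|)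
          (fun j _ => Finset.sum_nonneg (fun k _ => abs_nonneg _)) (Finset.mem_univ j)
        have hi := Finset.single_le_sum (f := fun i => ∑ j, ∑ k, |fE ε (x j - x i) (y j - y i) +
          fE ε (x k - x j) (y k - y j) - fE ε (x k - x i) (y k - y i)|)
          (fun i _ => Finset.sum_nonneg (fun j _ => Finset.sum_nonneg (fun k _ => abs_nonneg _)))
          (Finset.mem_univ i)
        exact hk.trans (hj.trans hi)
      exact abs_eq_zero.1 (le_antisymm (h0.trans hcon) (abs_nonneg _))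
    refine hε x y (fun i => fE ε (x i - x 0) (y i - y 0)) hG ?_
    intro i j
    have := hz 0 i j
    linarith
  obtain ⟨δ, hδ0, hδ⟩ := isCompact_gram.exists_forall_le' hΨc.continuousOn hΨpos
  refine ⟨ε, δ / 400, hε0, by positivity, ?_⟩
  intro v hv x
  by_contra hcon
  push Not at hcon
  set c : E4 := (1 / 5 : ℝ) • ∑ i, v i with hc
  set p : Fin 5 → E4 := fun i => v i - c with hp
  have hpd : ∀ i j, p j - p i = v j - v i := by
    intro i j
    simp only [hp]
    abel
  have hs : ∑ i, p i = 0 := by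
    simp only [hp, Finset.sum_sub_distrib, Finset.sum_const, Finset.card_univ, Fintype.card_fin, hc]
    rw [← Nat.cast_smul_eq_nsmul ℝ, smul_smul]
    norm_num
  have hd : ∀ i j, i ≠ j → ‖p j - p i‖ = 1 := by
    intro i j hij
    rw [hpd, ← dist_eq_norm, hv j i hij.symm]
  have hG := gram_of_dist p hs hd
  have hle := hδ (fun i => zc (p i), fun i => wc (p i)) hG
  have hfe : ∀ i j, fE ε (zc (p j) - zc (p i)) (wc (p j) - wc (p i)) = oddPoly ε (v j - v i) := by
    intro i j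
    rw [← zc_sub, ← wc_sub, hpd, oddPoly_eq]
  have hall : ∀ i j, |inner ℝ x (v j - v i) - oddPoly ε (v j - v i)| ≤ δ / 400 := by
    intro i j
    rcases lt_trichotomy i j with h | h | h
    · exact (hcon i j h).le
    · subst h
      have h0 : oddPoly ε (0 : E4) = 0 := by simp [oddPoly]
      rw [sub_self, h0, inner_zero_right]
      simp
      positivity
    · have h1 := (hcon j i h).le
      have h2 : v j - v i = -(v i - v j) := by abel
      rw [h2, oddPoly_neg, inner_neg_right, ← abs_neg]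
      have h3 : -(-inner ℝ x (v i - v j) - -oddPoly ε (v i - v j)) =
          inner ℝ x (v i - v j) - oddPoly ε (v i - v j) := by ring
      rw [h3]
      exact h1
  have hterm : ∀ i j k : Fin 5, |fE ε (zc (p j) - zc (p i)) (wc (p j) - wc (p i)) +
      fE ε (zc (p k) - zc (p j)) (wc (p k) - wc (p j)) -
      fE ε (zc (p k) - zc (p i)) (wc (p k) - wc (p i))| ≤ 3 * (δ / 400) := by
    intro i j k
    rw [hfe, hfe, hfe]
    have a1 := abs_le.1 (hall i j)
    have a2 := abs_le.1 (hall j k)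
    have a3 := abs_le.1 (hall i k)
    have e : inner ℝ x (v k - v i) = inner ℝ x (v j - v i) + inner ℝ x (v k - v j) := by
      rw [← inner_add_right]
      congr 1
      abel
    rw [abs_le]
    constructor <;> linarith [a1.1, a1.2, a2.1, a2.2, a3.1, a3.2]
  have hsum : Ψ (fun i => zc (p i), fun i => wc (p i)) ≤ 125 * (3 * (δ / 400)) := by
    simp only [Ψ]
    have : ∑ i : Fin 5, ∑ j : Fin 5, ∑ k : Fin 5,
        |fE ε (zc (p j) - zc (p i)) (wc (p j) - wc (p i)) +
        fE ε (zc (p k) - zc (p j)) (wc (p k) - wc (p j)) -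
        fE ε (zc (p k) - zc (p i)) (wc (p k) - wc (p i))| ≤
        ∑ _i : Fin 5, ∑ _j : Fin 5, ∑ _k : Fin 5, (3 * (δ / 400)) :=
      Finset.sum_le_sum (fun i _ => Finset.sum_le_sum (fun j _ => Finset.sum_le_sum
        (fun k _ => hterm i j k)))
    refine this.trans (le_of_eq ?_)
    simp
    ring
  linarith

/-- Main theorem. -/
theorem result :
    ∃ ε δ : ℝ, 0 < ε ∧ 0 < δ ∧
      (∀ u : E4, oddPoly ε (-u) = -oddPoly ε u) ∧ Continuous (oddPoly ε) ∧
      (∀ v : Fin 5 → E4, UnitSimplex v → ∀ x : E4,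
        ∃ i j, i < j ∧ δ ≤ |inner ℝ x (v j - v i) - oddPoly ε (v j - v i)|) ∧
      ∃ η : ℝ, 0 < η ∧ ∃ K : Set E4, IsCompact K ∧ Convex ℝ K ∧ (interior K).Nonempty ∧
        (∀ u : E4, ‖u‖ = 1 → (∀ y ∈ K, ∀ z ∈ K, inner ℝ (y - z) u ≤ 1) ∧
          ∃ y ∈ K, ∃ z ∈ K, inner ℝ (y - z) u = 1) ∧
        ∀ v : Fin 5 → E4, UnitSimplex v → ∀ x : E4,
          ¬ K ⊆ {y : E4 | ∀ i j, |inner ℝ (y - x) (v j - v i)| ≤ 1 / 2 + η} := by
  obtain ⟨ε, δ, hε, hδ, hq⟩ := exists_quant
  obtain ⟨t, ht, K, hKc, hKconv, hKint, hK⟩ := exists_body (oddPoly ε) (oddPoly_contDiff ε)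
  refine ⟨ε, δ, hε, hδ, oddPoly_neg ε, (oddPoly_contDiff ε).continuous, hq, t * δ / 2,
    by positivity, K, hKc, hKconv, hKint, ?_, ?_⟩
  · intro u hu
    have hu' : ‖-u‖ = 1 := by rw [norm_neg, hu]
    obtain ⟨h1, y, hy, hyu⟩ := hK u hu
    obtain ⟨h2, z, hz, hzu⟩ := hK (-u) hu'
    rw [oddPoly_neg] at h2 hzu
    refine ⟨?_, y, hy, z, hz, ?_⟩
    · intro a ha b hb
      have a1 := h1 a ha
      have a2 := h2 b hb
      rw [inner_neg_right] at a2
      rw [inner_sub_left]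
      linarith
    · rw [inner_neg_right] at hzu
      rw [inner_sub_left]
      linarith
  · intro v hv x hsub
    obtain ⟨i, j, hij, hlt⟩ := hq v hv ((1 / t : ℝ) • x)
    have hu : ‖v j - v i‖ = 1 := by
      rw [← dist_eq_norm, hv j i hij.ne']
    have hu' : ‖-(v j - v i)‖ = 1 := by rw [norm_neg, hu]
    obtain ⟨-, y, hy, hyu⟩ := hK _ hu
    obtain ⟨-, z, hz, hzu⟩ := hK _ hu'
    rw [oddPoly_neg, inner_neg_right] at hzu
    have b1 := (abs_le.1 (hsub hy i j)).2
    have b2 := (abs_le.1 (hsub hz i j)).1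
    rw [inner_sub_left] at b1 b2
    have hx : inner ℝ ((1 / t : ℝ) • x) (v j - v i) = 1 / t * inner ℝ x (v j - v i) := by
      rw [inner_smul_left]
      simp
    rw [hx] at hlt
    have h3 : |t * (1 / t * inner ℝ x (v j - v i) - oddPoly ε (v j - v i))| ≤ t * δ / 2 := by
      have e : t * (1 / t * inner ℝ x (v j - v i) - oddPoly ε (v j - v i)) =
          inner ℝ x (v j - v i) - t * oddPoly ε (v j - v i) := by
        field_simp
      rw [e, abs_le]
      constructor <;> linarith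
    rw [abs_mul, abs_of_pos ht] at h3
    nlinarith

end Pool.Agent.Results.MP_4d4f59_co.ConstantWidthDimFour
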